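import Pool.Agent.Helper5.SX.St

/-!
# Project SX: module TYA
-/

set_option autoImplicit false

namespace Pool.Agent.Helper79.SX

open _root_.SX
open Finset
open scoped Classical

theorem hTYA : StFCD → StTYA := by
  intro hF V _ A c y l t0 t1 C L hfr B hB hty
  have hst : _root_.SX.St A c y l := hfr.st.mx.st
  have hcomp := hfr.comp B hB
  have hfree := hfr.free B hB
  unfold Ty2 at hty
  push Not at hty
  obtain ⟨x, hx, m, hm, hmk⟩ := hty
  have hnt : ∀ a, ¬ TightAt A c y l x a := by
    intro a ha
    exact hmk (ha.2 m hm).1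
  have hxC : x ∈ C B := hfree.sub hx
  have hxR : x ∈ Rp A c y l t0 B := hcomp.sub hxC
  have hexc : exc A c y l x ≤ t0 := by
    unfold Rp at hxR
    exact (Finset.mem_filter.mp hxR).2
  have hFx : (Fb A c y l x).card ≤ A.D + t0 := by
    have := hF V A c y l x hst
    omega
  have hsub : L B ⊆ Rp A c y l t0 B := hfree.sub.trans hcomp.sub
  have hblk : ∀ v ∈ Rp A c y l t0 B, A.b v = B := by
    intro v hv
    unfold Rp Rb at hv
    exact (Finset.mem_filter.mp (Finset.mem_filter.mp hv).1).2.1
  have hcard : (Rp A c y l t0 B \ L B).card ≤ (Fb A c y l x).card := by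
    apply Finset.card_le_card_of_injOn c
    · intro v hv
      have hv' := Finset.mem_sdiff.mp (Finset.mem_coe.mp hv)
      apply Finset.mem_coe.mpr
      by_contra hcv
      have hvC : v ∈ C B := hcomp.closed x hxC v hv'.1 hcv
      exact hv'.2 (hfree.closed x hx v hvC ⟨hcv, hnt _⟩)
    · intro v hv w hw hvw
      have hv' := Finset.mem_sdiff.mp (Finset.mem_coe.mp hv)
      have hw' := Finset.mem_sdiff.mp (Finset.mem_coe.mp hw)
      exact hst.base.lab.inj v w ((hblk v hv'.1).trans (hblk w hw'.1).symm) hvw
  have hsum : (Rp A c y l t0 B \ L B).card + (L B).card = (Rp A c y l t0 B).card :=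
    Finset.card_sdiff_add_card_eq_card hsub
  omega

end Pool.Agent.Helper79.SX
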